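import Pool.Agent.H57.EDT.Idx

/-! The first Grigorchuk group has an indexed normal form over `{a, b, c, d}` whose words have
length at most quadratic in the word length of the element. -/

namespace Pool.Agent.Results.MP_246a43_al.IndexedNormalForm

open Pool.Agent.H57.EDT

theorem result : ∃ L : Set (List Gen), IsIndexed L ∧
    (∀ g : Grig, ∃! w, w ∈ L ∧ (w.map gen).prod = g) ∧
    ∃ C : ℕ, ∀ w ∈ L, w.length ≤ C * (wordLength (w.map gen).prod + 1) ^ 2 :=
  indexed_normal_form

end Pool.Agent.Results.MP_246a43_al.IndexedNormalForm
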