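import Pool.Agent.H57.EDT.Growth

/-! EDT0L languages and normal forms of the first Grigorchuk group.

`result`: if an EDT0L language `L` over a finite alphabet, mapped to the first Grigorchuk group
`G`, has only finitely many words for each element of `G`, then there is `ε > 0` such that for
all large `r` some element of word length at most `r` has no representative in `L` of length
less than `exp (r ^ ε)`. In particular `L` is not a geodesic normal form
(`not_geodesic` below). -/

namespace Pool.Agent.Results.MP_246a43_al.NoEDT0L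

open Pool.Agent.H57.EDT

theorem result : ∀ (A : Type) (ev : A → Grig) (L : Set (List A)), IsEDT0L L →
    (∀ g : Grig, {w | w ∈ L ∧ (w.map ev).prod = g}.Finite) →
    ∃ ε : ℝ, 0 < ε ∧ ∃ r0 : ℕ, ∀ r : ℕ, r0 ≤ r → ∃ g : Grig, wordLength g ≤ r ∧
      ∀ w ∈ L, (w.map ev).prod = g → Real.exp ((r : ℝ) ^ ε) ≤ (w.length : ℝ) :=
  fun _ ev L hL hfin => no_short ev L hL hfin

/-- In particular a geodesic normal form over `{a, b, c, d}` is not EDT0L. -/
theorem not_geodesic (L : Set (List Gen)) (hL : IsEDT0L L) : ¬ IsGeodesicNormalForm L := by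
  rintro ⟨h1, h2⟩
  have hfin : ∀ g : Grig, {w | w ∈ L ∧ (w.map gen).prod = g}.Finite := by
    intro g
    obtain ⟨w, -, hw⟩ := h1 g
    exact (Set.finite_singleton w).subset (fun u hu => hw u hu)
  obtain ⟨ε, hε, r0, hr⟩ := result Gen gen L hL hfin
  -- `r < exp (r ^ ε)` for large `r`
  have hlim : Filter.Tendsto (fun r : ℕ => Real.exp ((r : ℝ) ^ ε) / (r : ℝ)) Filter.atTop
      Filter.atTop := by
    have h3 : Filter.Tendsto (fun x : ℝ => Real.exp x / x ^ (1 / ε)) Filter.atTop
        Filter.atTop := tendsto_exp_div_rpow_atTop (1 / ε)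
    have h4 : Filter.Tendsto (fun r : ℕ => ((r : ℝ)) ^ ε) Filter.atTop Filter.atTop :=
      (tendsto_rpow_atTop hε).comp tendsto_natCast_atTop_atTop
    have h5 := h3.comp h4
    refine h5.congr (fun r => ?_)
    simp only [Function.comp]
    rw [← Real.rpow_mul (Nat.cast_nonneg r), mul_one_div_cancel hε.ne', Real.rpow_one]
  obtain ⟨N, hN⟩ := (hlim.eventually_gt_atTop 1).exists_forall_of_atTop
  set r := max (max r0 N) 1 with hrdef
  have hr1 : 1 ≤ r := le_max_right _ _
  obtain ⟨g, hg, hgw⟩ := hr r ((le_max_left _ _).trans (le_max_left _ _))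
  obtain ⟨w, ⟨hw, hwg⟩, -⟩ := h1 g
  have h6 := hgw w hw hwg
  have h7 := h2 w hw
  rw [hwg] at h7
  have h8 := hN r ((le_max_right _ _).trans (le_max_left _ _))
  have h9 : (0 : ℝ) < r := by exact_mod_cast hr1
  rw [lt_div_iff₀ h9, one_mul] at h8
  have h10 : ((w.length : ℕ) : ℝ) ≤ r := by rw [h7]; exact_mod_cast hg
  linarith

end Pool.Agent.Results.MP_246a43_al.NoEDT0L
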