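import Pool.Agent.H51.IGN.M9

/-! Every geodesic normal form of the first Grigorchuk group over `{a, b, c, d}` has a language
that is not indexed. -/

namespace Pool.Agent.Results.MP_246a43_al.NoIndexedGeodesicForm

open Pool.Agent.H57.EDT

theorem result (W : Grig → List Gen) (hrep : ∀ g, ((W g).map gen).prod = g)
    (hgeo : ∀ g, (W g).length = wordLength g) : ¬ IsIndexed (Set.range W) := by
  intro hidx
  refine Pool.Agent.H51.IGN.no_indexed_geodesic_normal_form ⟨Set.range W, ⟨?_, ?_⟩, hidx⟩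
  · intro g
    refine ⟨W g, ⟨⟨g, rfl⟩, hrep g⟩, ?_⟩
    rintro _ ⟨⟨g', rfl⟩, h⟩
    rw [hrep g'] at h
    rw [h]
  · rintro _ ⟨g, rfl⟩
    rw [hrep g]
    exact hgeo g

end Pool.Agent.Results.MP_246a43_al.NoIndexedGeodesicForm
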